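import Pool.Agent.Helper535.W

/-!
# Compact spaces splittable over Gul'ko compacta: products, closed subspaces, images

Auxiliary results on the families of continuous functions of `Pool.Agent.Helper535`.
-/

set_option autoImplicit false

open Set Topology Cardinal

namespace Pool.Agent.Y417.SG

open Pool.Agent.Helper535

universe u v w

/-- products -/
theorem gs_pi {ι : Type} {X : ι → Type u} [∀ i, TopologicalSpace (X i)] {E : ι → Type v}
    [∀ i, TopologicalSpace (E i)] (hX : ∀ i, GS (E i) (X i)) : GS (Σ i, E i) (∀ i, X i) := by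
  choose S h e H hsep using hX
  refine ⟨Σ i, S i, fun s => (h s.1 s.2).comp ⟨fun x => x s.1, continuous_apply s.1⟩,
    fun s => ⟨s.1, e s.1 s.2⟩, ⟨?_, ?_⟩, ?_⟩
  · rintro ⟨n, s⟩ x
    exact (H n).bdd s (x n)
  · rintro x ⟨n, z⟩ ε hε
    obtain ⟨O, hO, hf⟩ := (H n).fin (x n) z ε hε
    refine ⟨Sigma.mk n '' O, ?_, ?_⟩
    · rw [Sigma.nhds_mk]
      exact Filter.image_mem_map hO
    · apply (hf.image (Sigma.mk n)).subset
      rintro ⟨m, s⟩ ⟨⟨o, ho, heq⟩, h2⟩
      obtain ⟨rfl, h3⟩ := Sigma.mk.inj_iff.1 heq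
      have h4 := eq_of_heq h3
      refine ⟨s, ⟨?_, h2⟩, rfl⟩
      rw [← h4]
      exact ho
  · intro x y hxy
    funext n
    exact hsep n _ _ fun s => hxy ⟨n, s⟩

/-- continuous injections -/
theorem gs_inj {X Y : Type u} [TopologicalSpace X] [TopologicalSpace Y] {E : Type v}
    [TopologicalSpace E] (hY : GS E Y) (f : C(X, Y)) (hf : Function.Injective f) : GS E X := by
  obtain ⟨S, h, e, H, hsep⟩ := hY
  exact ⟨S, fun s => (h s).comp f, e, H.comp f, fun x y hxy => hf (hsep _ _ hxy)⟩

/-- In a Corson compact space every dense set bounds the weight (proof of helper535). -/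
theorem exists_basis {X : Type u} [TopologicalSpace X] [CompactSpace X] [T2Space X]
    (h : CorsonOn (univ : Set X)) {D : Set X} (hD : Dense D) :
    ∃ B : Set (Set X), TopologicalSpace.IsTopologicalBasis B ∧ #B ≤ #D := by
  classical
  rcases finite_or_infinite X with hX | hX
  · have hD' : D = Set.univ := by
      have := hD.closure_eq
      rwa [(Set.toFinite D).isClosed.closure_eq] at this
    refine ⟨range (fun x : X => ({x} : Set X)), ?_, ?_⟩
    · apply TopologicalSpace.isTopologicalBasis_of_isOpen_of_nhds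
      · rintro _ ⟨x, rfl⟩
        exact isOpen_discrete _
      · intro x U hx _
        exact ⟨{x}, ⟨x, rfl⟩, rfl, singleton_subset_iff.2 hx⟩
    · rw [hD', Cardinal.mk_univ]
      exact Cardinal.mk_range_le
  · have hDinf : ℵ₀ ≤ #D := by
      rw [Cardinal.infinite_iff.symm, Set.infinite_coe_iff]
      intro hfin
      have := hD.closure_eq
      rw [hfin.isClosed.closure_eq] at this
      rw [this] at hfin
      exact hX.not_finite (Set.finite_univ_iff.1 hfin)
    obtain ⟨F, hF, hsep⟩ := h
    let F' : Set C(X, ℝ) := {f | f ∈ F ∧ ∃ b ∈ D, f b ≠ 0}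
    have hF'c : #F' ≤ #D := (trim_card (B := D) (F := F) (fun x _ => hF x (mem_univ x))).trans
      (max_le le_rfl hDinf)
    have hsep' : ∀ x y, x ≠ y → ∃ f ∈ F', f x ≠ f y := by
      intro x y hxy
      by_contra hall
      push Not at hall
      apply hxy
      apply hsep x (mem_univ x) y (mem_univ y)
      intro f hf
      by_contra hne
      exact hne (hall f (trim_sep (hD x) (hD y) hf hne))
    let V : Finset (F' × ℚ × ℚ) → Set X := fun j =>
      {x | ∀ t ∈ j, ((t.2.1 : ℚ) : ℝ) < t.1.1 x ∧ t.1.1 x < ((t.2.2 : ℚ) : ℝ)}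
    have hVopen : ∀ j, IsOpen (V j) := by
      intro j
      have : V j = ⋂ t ∈ j, {x | ((t.2.1 : ℚ) : ℝ) < t.1.1 x ∧ t.1.1 x < ((t.2.2 : ℚ) : ℝ)} := by
        ext y; simp [V]
      rw [this]
      apply isOpen_biInter_finset
      intro t _
      exact (isOpen_lt continuous_const t.1.1.continuous).inter
        (isOpen_lt t.1.1.continuous continuous_const)
    refine ⟨range V, ?_, ?_⟩
    · apply TopologicalSpace.isTopologicalBasis_of_isOpen_of_nhds
      · rintro _ ⟨j, rfl⟩; exact hVopen j
      · intro x U hx hU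
        have hK : IsCompact Uᶜ := hU.isClosed_compl.isCompact
        -- for every point outside U a triple
        have hW : ∀ y ∈ Uᶜ, ∃ t : F' × ℚ × ℚ, (((t.2.1 : ℚ) : ℝ) < t.1.1 x ∧
            t.1.1 x < ((t.2.2 : ℚ) : ℝ)) ∧
            (t.1.1 y < ((t.2.1 : ℚ) : ℝ) ∨ ((t.2.2 : ℚ) : ℝ) < t.1.1 y) := by
          intro y hy
          have hxy : x ≠ y := by rintro rfl; exact hy hx
          obtain ⟨f, hf, hne⟩ := hsep' x y hxy
          rcases lt_or_gt_of_ne hne with h | h
          · obtain ⟨q, hq1, hq2⟩ := exists_rat_btwn h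
            obtain ⟨q', hq'⟩ := exists_rat_lt (f x)
            exact ⟨(⟨f, hf⟩, q', q), ⟨hq', hq1⟩, Or.inr hq2⟩
          · obtain ⟨q, hq1, hq2⟩ := exists_rat_btwn h
            obtain ⟨q', hq'⟩ := exists_rat_gt (f x)
            exact ⟨(⟨f, hf⟩, q, q'), ⟨hq2, hq'⟩, Or.inl hq1⟩
        let T : Set (F' × ℚ × ℚ) := {t | ((t.2.1 : ℚ) : ℝ) < t.1.1 x ∧ t.1.1 x < ((t.2.2 : ℚ) : ℝ)}
        let O : F' × ℚ × ℚ → Set X := fun t =>
          {y | t.1.1 y < ((t.2.1 : ℚ) : ℝ)} ∪ {y | ((t.2.2 : ℚ) : ℝ) < t.1.1 y}
        obtain ⟨b, hbT, hbfin, hb⟩ := hK.elim_finite_subcover_image (b := T) (c := O)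
          (fun t _ => (isOpen_lt t.1.1.continuous continuous_const).union
            (isOpen_lt continuous_const t.1.1.continuous))
          (by
            intro y hy
            obtain ⟨t, ht1, ht2⟩ := hW y hy
            simp only [mem_iUnion]
            exact ⟨t, ht1, ht2⟩)
        refine ⟨V hbfin.toFinset, ⟨_, rfl⟩, ?_, ?_⟩
        · intro t ht
          exact hbT (hbfin.mem_toFinset.1 ht)
        · intro y hy
          by_contra hyU
          have := hb hyU
          simp only [mem_iUnion] at this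
          obtain ⟨t, ht, hty⟩ := this
          have h2 := hy t (hbfin.mem_toFinset.2 ht)
          rcases hty with h | h
          · exact absurd h2.1 (not_lt.2 (le_of_lt h))
          · exact absurd h2.2 (not_lt.2 (le_of_lt h))
    · refine Cardinal.mk_range_le.trans ?_
      refine (mk_finset_le _).trans (max_le ?_ hDinf)
      calc #(F' × ℚ × ℚ) = #F' * ℵ₀ := by simp [Cardinal.mk_prod]
        _ ≤ #D * #D := mul_le_mul' hF'c hDinf
        _ = #D := Cardinal.mul_eq_self hDinf

/-- every family of pairwise disjoint nonempty open sets has at most `κ` members -/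
def Cell (κ : Cardinal.{u}) (Z : Type u) [TopologicalSpace Z] : Prop :=
  ∀ 𝒰 : Set (Set Z), (∀ U ∈ 𝒰, IsOpen U ∧ U.Nonempty) → 𝒰.PairwiseDisjoint id → #𝒰 ≤ κ

/-- the density of a space with a dense metrizable subspace is at most its cellularity -/
theorem density_of_cell {Z : Type u} [TopologicalSpace Z] {κ : Cardinal.{u}} (hκ : ℵ₀ ≤ κ)
    (hc : Cell κ Z) {D : Set Z} (hD : Dense D) (hm : TopologicalSpace.MetrizableSpace D) :
    ∃ C : Set Z, #C ≤ κ ∧ Dense C := by
  classical
  letI := TopologicalSpace.metrizableSpaceMetric D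
  have key : ∀ n : ℕ, ∃ s : Set D, #s ≤ κ ∧ ∀ x : D, ∃ y ∈ s, dist x y < 1 / ((n : ℝ) + 1) := by
    intro n
    obtain ⟨r, hr⟩ : ∃ r : ℝ, r = 1 / ((n : ℝ) + 1) := ⟨_, rfl⟩
    have hr0 : 0 < r := by rw [hr]; positivity
    rw [← hr]
    obtain ⟨s, hs⟩ := zorn_subset {s : Set D | s.Pairwise fun x y => r ≤ dist x y} (by
      intro c hc1 hc2
      refine ⟨⋃₀ c, ?_, fun s hs => subset_sUnion_of_mem hs⟩
      exact (pairwise_sUnion hc2.directedOn).2 fun a ha => hc1 ha)
    have hsp : s.Pairwise fun x y => r ≤ dist x y := hs.prop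
    refine ⟨s, ?_, ?_⟩
    · -- open sets
      have h1 : ∀ x : D, ∃ U : Set Z, IsOpen U ∧ Metric.ball x (r / 2) = Subtype.val ⁻¹' U := by
        intro x
        obtain ⟨U, hU, hU2⟩ := isOpen_induced_iff.1 (Metric.isOpen_ball (x := x) (ε := r / 2))
        exact ⟨U, hU, hU2.symm⟩
      choose U hU1 hU2 using h1
      have hxU : ∀ x : D, x.1 ∈ U x := by
        intro x
        have : x ∈ Subtype.val ⁻¹' U x := by
          rw [← hU2]
          exact Metric.mem_ball_self (by positivity)
        exact this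
      have hdis : ∀ x ∈ s, ∀ y ∈ s, x ≠ y → Disjoint (U x) (U y) := by
        intro x hx y hy hxy
        rw [Set.disjoint_iff_inter_eq_empty]
        by_contra hne
        obtain ⟨d, hd1, hd2⟩ := hD.inter_open_nonempty _ ((hU1 x).inter (hU1 y))
          (nonempty_iff_ne_empty.2 hne)
        have h3 : (⟨d, hd2⟩ : D) ∈ Metric.ball x (r / 2) := by
          rw [hU2]
          exact hd1.1
        have h4 : (⟨d, hd2⟩ : D) ∈ Metric.ball y (r / 2) := by
          rw [hU2]
          exact hd1.2
        rw [Metric.mem_ball] at h3 h4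
        have h5 := hsp hx hy hxy
        have h6 := dist_triangle_left x y (⟨d, hd2⟩ : D)
        linarith
      have hinj : Set.InjOn U s := by
        intro x hx y hy hxy
        by_contra hne
        have h2 := hdis x hx y hy hne
        rw [← hxy, disjoint_self] at h2
        have h3 := hxU x
        rw [h2] at h3
        exact h3
      have h2 : #(U '' s) ≤ κ := by
        apply hc
        · rintro _ ⟨x, hx, rfl⟩
          exact ⟨hU1 x, ⟨x.1, hxU x⟩⟩
        · rintro _ ⟨x, hx, rfl⟩ _ ⟨y, hy, rfl⟩ hne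
          exact hdis x hx y hy fun h => hne (by rw [h])
      rwa [Cardinal.mk_image_eq_of_injOn U s hinj] at h2
    · intro x
      by_contra hcon
      push Not at hcon
      have h1 : (insert x s).Pairwise fun x y => r ≤ dist x y := by
        rw [Set.pairwise_insert]
        refine ⟨hsp, fun y hy _ => ⟨hcon y hy, ?_⟩⟩
        rw [dist_comm]
        exact hcon y hy
      have h2 : insert x s ⊆ s := hs.le_of_ge h1 (subset_insert x s)
      have h3 := hcon x (h2 (mem_insert x s))
      rw [dist_self] at h3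
      linarith
  choose s hs1 hs2 using key
  have hcs : #(⋃ n, s n) ≤ κ := by
    have h1 := Cardinal.mk_iUnion_le_lift s
    rw [Cardinal.lift_uzero] at h1
    refine h1.trans ?_
    calc Cardinal.lift.{u} #ℕ * ⨆ n, Cardinal.lift.{0} #(s n) ≤ κ * κ := by
          apply mul_le_mul'
          · rw [Cardinal.mk_nat, Cardinal.lift_aleph0]
            exact hκ
          · apply ciSup_le'
            intro n
            rw [Cardinal.lift_uzero]
            exact hs1 n
      _ = κ := Cardinal.mul_eq_self hκ
  have hds : Dense (⋃ n, s n) := by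
    rw [Metric.dense_iff]
    intro x ρ hρ
    obtain ⟨n, hn⟩ := exists_nat_one_div_lt hρ
    obtain ⟨y, hy, hxy⟩ := hs2 n x
    refine ⟨y, ?_, mem_iUnion.2 ⟨n, hy⟩⟩
    rw [Metric.mem_ball, dist_comm]
    exact hxy.trans hn
  refine ⟨Subtype.val '' (⋃ n, s n), Cardinal.mk_image_le.trans hcs, ?_⟩
  exact hD.denseRange_val.dense_image continuous_subtype_val hds

/-- a separating family gives a Corson compact space -/
theorem corson_of_gs {X : Type u} [TopologicalSpace X] {E : Type v} [TopologicalSpace E]
    [SecondCountableTopology E] (hX : GS E X) : CorsonOn (univ : Set X) := by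
  obtain ⟨S, h, e, H, hsep⟩ := hX
  refine ⟨range h, ?_, ?_⟩
  · intro x _
    have : {f | f ∈ range h ∧ f x ≠ 0} ⊆ h '' {s | h s x ≠ 0} := by
      rintro f ⟨⟨s, rfl⟩, hne⟩
      exact ⟨s, hne, rfl⟩
    exact ((H.pcount x).image h).mono this
  · intro x _ y _ hxy
    exact hsep x y fun s => hxy (h s) ⟨s, rfl⟩

/-- the weight is at most the cellularity -/
theorem base_of_cell {X : Type u} [TopologicalSpace X] [CompactSpace X] [T2Space X]
    {E : Type v} [TopologicalSpace E] [SecondCountableTopology E] (hX : GS E X)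
    {κ : Cardinal.{u}} (hκ : ℵ₀ ≤ κ) (hc : Cell κ X) {D : Set X} (hD : Dense D)
    (hm : TopologicalSpace.MetrizableSpace D) :
    ∃ B : Set (Set X), TopologicalSpace.IsTopologicalBasis B ∧ #B ≤ κ := by
  obtain ⟨C, hC1, hC2⟩ := density_of_cell hκ hc hD hm
  obtain ⟨B, hB1, hB2⟩ := exists_basis (corson_of_gs hX) hC2
  exact ⟨B, hB1, hB2.trans hC1⟩

/-- the dense metrizable subspace can be taken to be a `G_δ` (after `GS.dense_metrizable`) -/
theorem dense_metrizable_gd {X : Type u} [TopologicalSpace X] [CompactSpace X] [T2Space X]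
    {E : Type v} [TopologicalSpace E] [SecondCountableTopology E] (hX : GS E X) :
    ∃ D : Set X, Dense D ∧ IsGδ D ∧ TopologicalSpace.MetrizableSpace D := by
  classical
  -- make the family non-negative
  obtain ⟨S0, h0, e0, H0, hsep0⟩ := hX
  let h : S0 ⊕ S0 → C(X, ℝ) := Sum.elim (fun s => h0 s ⊔ 0) (fun s => (-h0 s) ⊔ 0)
  let e : S0 ⊕ S0 → E := Sum.elim e0 e0
  have hval1 : ∀ s x, h (Sum.inl s) x = max (h0 s x) 0 := fun s x => rfl
  have hval2 : ∀ s x, h (Sum.inr s) x = max (-h0 s x) 0 := fun s x => rfl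
  have hnn : ∀ s x, 0 ≤ h s x := by
    rintro (s | s) x
    · rw [hval1]; exact le_max_right _ _
    · rw [hval2]; exact le_max_right _ _
  have hfin : ∀ x z ε, 0 < ε → ∃ O ∈ 𝓝 z, {s | e s ∈ O ∧ ε ≤ h s x}.Finite := by
    intro x z ε hε
    obtain ⟨O, hO, hf⟩ := H0.fin x z ε hε
    refine ⟨O, hO, ?_⟩
    apply ((hf.image Sum.inl).union (hf.image Sum.inr)).subset
    rintro (s | s) ⟨hs1, hs2⟩
    · refine Or.inl ⟨s, ⟨hs1, ?_⟩, rfl⟩
      rw [hval1] at hs2
      rcases le_max_iff.1 hs2 with h | h
      · exact h.trans (le_abs_self _)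
      · linarith
    · refine Or.inr ⟨s, ⟨hs1, ?_⟩, rfl⟩
      rw [hval2] at hs2
      rcases le_max_iff.1 hs2 with h | h
      · exact h.trans (neg_le_abs _)
      · linarith
  have hsep : ∀ x y, (∀ s, h s x = h s y) → x = y := by
    intro x y hxy
    apply hsep0
    intro s
    have h1 := hxy (Sum.inl s)
    have h2 := hxy (Sum.inr s)
    rw [hval1, hval1] at h1
    rw [hval2, hval2] at h2
    rcases le_total 0 (h0 s x) with h3 | h3 <;> rcases le_total 0 (h0 s y) with h4 | h4
    · rwa [max_eq_left h3, max_eq_left h4] at h1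
    · rw [max_eq_left h3, max_eq_right h4] at h1
      rw [max_eq_right (by linarith), max_eq_left (by linarith)] at h2
      linarith
    · rw [max_eq_right h3, max_eq_left h4] at h1
      rw [max_eq_left (by linarith), max_eq_right (by linarith)] at h2
      linarith
    · rw [max_eq_left (by linarith), max_eq_left (by linarith)] at h2
      linarith
  -- the countable base
  have hB := TopologicalSpace.isBasis_countableBasis E
  have hBc : Countable (TopologicalSpace.countableBasis E) :=
    (TopologicalSpace.countable_countableBasis E)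
  let I : Type _ := TopologicalSpace.countableBasis E × ℕ × ℚ
  let F : TopologicalSpace.countableBasis E → ℚ → X → Set (S0 ⊕ S0) := fun O q x =>
    {s | e s ∈ O.1 ∧ (q : ℝ) < h s x}
  let Y : TopologicalSpace.countableBasis E → ℕ → ℚ → Set X := fun O k q =>
    {x | ¬ ∃ t : Finset (S0 ⊕ S0), t.card = k + 1 ∧ (t : Set (S0 ⊕ S0)) ⊆ F O q x}
  have hYc : ∀ O k q, IsClosed (Y O k q) := by
    intro O k q
    rw [← isOpen_compl_iff]
    have : (Y O k q)ᶜ = ⋃ t : {t : Finset (S0 ⊕ S0) // t.card = k + 1 ∧ ∀ s ∈ t, e s ∈ O.1},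
        ⋂ s ∈ t.1, {x | (q : ℝ) < h s x} := by
      ext x
      simp only [Y, mem_compl_iff, mem_ofPred_eq, not_not, mem_iUnion, mem_iInter, Subtype.exists]
      constructor
      · rintro ⟨t, ht1, ht2⟩
        exact ⟨t, ⟨ht1, fun s hs => (ht2 hs).1⟩, fun s hs => (ht2 hs).2⟩
      · rintro ⟨t, ⟨ht1, ht2⟩, ht3⟩
        exact ⟨t, ht1, fun s hs => ⟨ht2 s hs, ht3 s hs⟩⟩
    rw [this]
    apply isOpen_iUnion
    intro t
    exact isOpen_biInter_finset fun s _ => isOpen_lt continuous_const (h s).continuous
  have hYfin : ∀ O k q x, x ∈ Y O k q → (F O q x).Finite := by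
    intro O k q x hx
    by_contra hinf
    obtain ⟨t, ht1, ht2⟩ := Set.Infinite.exists_subset_card_eq hinf (k+1)
    exact hx ⟨t, ht2, ht1⟩
  have hYself : ∀ O q x (hf : (F O q x).Finite), x ∈ Y O hf.toFinset.card q := by
    rintro O q x hf ⟨t, ht1, ht2⟩
    have : t ⊆ hf.toFinset := by
      intro s hs
      rw [Set.Finite.mem_toFinset]; exact ht2 hs
    have := Finset.card_le_card this
    omega
  let D : Set X := ⋂ i : TopologicalSpace.countableBasis E × ℕ × ℚ,
    (frontier (Y i.1 i.2.1 i.2.2))ᶜ
  have hD : Dense D := by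
    apply dense_iInter_of_isOpen
    · intro i; exact isClosed_frontier.isOpen_compl
    · intro i
      rw [← interior_eq_empty_iff_dense_compl]
      exact interior_frontier (hYc _ _ _)
  let Φ : D → (TopologicalSpace.countableBasis E × ℕ × ℚ → Option (Set (S0 ⊕ S0))) := fun x i =>
    if x.1 ∈ Y i.1 i.2.1 i.2.2 then some (F i.1 i.2.2 x.1) else none
  letI : TopologicalSpace (Option (Set (S0 ⊕ S0))) := ⊥
  haveI : DiscreteTopology (Option (Set (S0 ⊕ S0))) := ⟨rfl⟩
  have hint : ∀ O k q, ∀ x ∈ D, x ∈ Y O k q → x ∈ interior (Y O k q) := by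
    intro O k q x hx hxY
    by_contra hni
    have : x ∈ frontier (Y O k q) := ⟨subset_closure hxY, hni⟩
    exact mem_iInter.1 hx (O, k, q) this
  have hΦ : Continuous Φ := by
    apply continuous_pi
    intro i
    rw [continuous_iff_continuousAt]
    intro x
    have hev : ∀ᶠ y in 𝓝 x, Φ y i = Φ x i := by
      by_cases hx : x.1 ∈ Y i.1 i.2.1 i.2.2
      · have hf := hYfin _ _ _ _ hx
        have h1 := hint _ _ _ _ x.2 (hYself i.1 i.2.2 x.1 hf)
        have h2 := hint _ _ _ _ x.2 hx
        have h3 : ∀ᶠ y in 𝓝 x.1, ∀ s ∈ hf.toFinset, (i.2.2 : ℝ) < h s y := by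
          rw [Filter.eventually_all_finset]
          intro s hs
          rw [Set.Finite.mem_toFinset] at hs
          exact (isOpen_lt continuous_const (h s).continuous).mem_nhds hs.2
        have h4 : ∀ᶠ y in 𝓝 x.1, y ∈ Y i.1 hf.toFinset.card i.2.2 :=
          mem_interior_iff_mem_nhds.1 h1
        have h5 : ∀ᶠ y in 𝓝 x.1, y ∈ Y i.1 i.2.1 i.2.2 := mem_interior_iff_mem_nhds.1 h2
        have h6 := continuous_subtype_val.continuousAt.eventually (h3.and (h4.and h5))
        filter_upwards [h6] with y hy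
        obtain ⟨hy1, hy2, hy3⟩ := hy
        have hFF : F i.1 i.2.2 y.1 = F i.1 i.2.2 x.1 := by
          apply Set.Subset.antisymm
          · intro s hs
            by_contra hsx
            apply hy2
            refine ⟨insert s hf.toFinset, ?_, ?_⟩
            · rw [Finset.card_insert_of_notMem]
              rw [Set.Finite.mem_toFinset]; exact hsx
            · intro s' hs'
              rw [Finset.coe_insert, mem_insert_iff] at hs'
              rcases hs' with rfl | hs'
              · exact hs
              · have h7 := hs'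
                rw [Finset.mem_coe, Set.Finite.mem_toFinset] at h7
                exact ⟨h7.1, hy1 s' hs'⟩
          · intro s hs
            exact ⟨hs.1, hy1 s (by rw [Set.Finite.mem_toFinset]; exact hs)⟩
        simp only [Φ, hx, hy3, if_true, hFF]
      · have h1 : ∀ᶠ y in 𝓝 x.1, y ∉ Y i.1 i.2.1 i.2.2 :=
          (hYc _ _ _).isOpen_compl.mem_nhds hx
        have h6 := continuous_subtype_val.continuousAt.eventually h1
        filter_upwards [h6] with y hy
        simp only [Φ, hx, hy, if_false]
    unfold ContinuousAt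
    rw [nhds_discrete (Option (Set (S0 ⊕ S0)))]
    exact Filter.tendsto_pure.2 hev
  -- the functions separate topologically
  have hcontX : Continuous (fun (x : X) (s : S0 ⊕ S0) => h s x) :=
    continuous_pi fun s => (h s).continuous
  have hembX : IsClosedEmbedding (fun (x : X) (s : S0 ⊕ S0) => h s x) :=
    hcontX.isClosedEmbedding fun x y hxy => hsep x y fun s => congrFun hxy s
  have hembD : IsEmbedding (fun (x : D) (s : S0 ⊕ S0) => h s x.1) :=
    hembX.isEmbedding.comp IsEmbedding.subtypeVal
  have hind : IsInducing Φ := by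
    rw [isInducing_iff_nhds]
    intro x
    apply le_antisymm
    · exact Filter.map_le_iff_le_comap.1 hΦ.continuousAt
    · rw [hembD.isInducing.nhds_eq_comap x, ← Filter.map_le_iff_le_comap]
      show Filter.Tendsto (fun (x : D) (s : S0 ⊕ S0) => h s x.1) (Filter.comap Φ (𝓝 (Φ x))) _
      rw [tendsto_pi_nhds]
      intro s
      have hcoord : ∀ i, ∀ᶠ y in Filter.comap Φ (𝓝 (Φ x)), Φ y i = Φ x i := by
        intro i
        have h1 : ∀ᶠ φ in 𝓝 (Φ x), φ i = Φ x i := by
          have h2 := (continuous_apply i).continuousAt (x := Φ x)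
          unfold ContinuousAt at h2
          rw [nhds_discrete (Option (Set (S0 ⊕ S0)))] at h2
          exact Filter.tendsto_pure.1 h2
        exact Filter.Eventually.comap h1 Φ
      have hq : ∀ q : ℚ, (0:ℝ) < q → ∃ (O : TopologicalSpace.countableBasis E) (k : ℕ),
          e s ∈ O.1 ∧ x.1 ∈ Y O k q := by
        intro q hq
        obtain ⟨V, hV, hf⟩ := hfin x.1 (e s) q hq
        obtain ⟨O, hO, hO1, hO2⟩ := hB.mem_nhds_iff.1 hV
        have hf' : (F ⟨O, hO⟩ q x.1).Finite := by
          apply hf.subset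
          intro s' hs'
          exact ⟨hO2 hs'.1, hs'.2.le⟩
        exact ⟨⟨O, hO⟩, _, hO1, hYself _ _ _ hf'⟩
      rw [tendsto_order]
      constructor
      · intro a ha
        rcases lt_or_ge a 0 with h1 | h1
        · exact Filter.Eventually.of_forall fun y => h1.trans_le (hnn _ _)
        · obtain ⟨q, hq1, hq2⟩ := exists_rat_btwn ha
          obtain ⟨O, k, hO, hY⟩ := hq q (h1.trans_lt hq1)
          filter_upwards [hcoord (O, k, q)] with y hy
          have h3 : Φ x (O, k, q) = some (F O q x.1) := by simp only [Φ, hY, if_true]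
          rw [h3] at hy
          by_cases hyY : y.1 ∈ Y O k q
          · have h4 : Φ y (O, k, q) = some (F O q y.1) := by simp only [Φ, hyY, if_true]
            rw [h4, Option.some_inj] at hy
            have h5 : s ∈ F O q y.1 := by rw [hy]; exact ⟨hO, hq2⟩
            exact hq1.trans h5.2
          · have h4 : Φ y (O, k, q) = none := by simp only [Φ, hyY, if_false]
            rw [h4] at hy
            exact absurd hy (by simp)
      · intro a ha
        obtain ⟨q, hq1, hq2⟩ := exists_rat_btwn ha
        obtain ⟨O, k, hO, hY⟩ := hq q ((hnn s x.1).trans_lt hq1)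
        filter_upwards [hcoord (O, k, q)] with y hy
        have h3 : Φ x (O, k, q) = some (F O q x.1) := by simp only [Φ, hY, if_true]
        rw [h3] at hy
        by_cases hyY : y.1 ∈ Y O k q
        · have h4 : Φ y (O, k, q) = some (F O q y.1) := by simp only [Φ, hyY, if_true]
          rw [h4, Option.some_inj] at hy
          have h5 : s ∉ F O q y.1 := by
            rw [hy]
            rintro ⟨-, h6⟩
            exact absurd h6 (not_lt.2 hq1.le)
          have h6 : ¬ ((q : ℝ) < h s y.1) := fun h7 => h5 ⟨hO, h7⟩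
          exact (not_lt.1 h6).trans_lt hq2
        · have h4 : Φ y (O, k, q) = none := by simp only [Φ, hyY, if_false]
          rw [h4] at hy
          exact absurd hy (by simp)
  have hT0 : T0Space D := inferInstance
  have hemb : IsEmbedding Φ := hind.isEmbedding
  have hG : IsGδ D := IsGδ.iInter_of_isOpen fun i => isClosed_frontier.isOpen_compl
  refine ⟨D, hD, hG, ?_⟩
  have hmet : TopologicalSpace.MetrizableSpace
      (TopologicalSpace.countableBasis E × ℕ × ℚ → Option (Set (S0 ⊕ S0))) := by
    letI : UniformSpace (Option (Set (S0 ⊕ S0))) := ⊥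
    infer_instance
  exact hemb.metrizableSpace

end Pool.Agent.Y417.SG
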