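import Pool.Agent.Y417.SG.Base

/-!
# Compact spaces splittable over Gul'ko compacta: the closure properties
-/

set_option autoImplicit false

open Set Topology Cardinal

namespace Pool.Agent.Y417.SG

open Pool.Agent.Helper535

universe u v w

/-- `Z` is a Lindelöf Σ-space: `Z` is a continuous image of a Tychonoff space `P` which admits a
perfect map (continuous, closed, onto, with compact fibres) onto a separable metrizable space
`M`. -/
def LindelofSigma (Z : Type u) [TopologicalSpace Z] : Prop :=
  ∃ (P : Type u) (_ : TopologicalSpace P) (M : Type u) (_ : TopologicalSpace M),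
    T35Space P ∧ TopologicalSpace.MetrizableSpace M ∧ TopologicalSpace.SeparableSpace M ∧
    (∃ p : P → M, Continuous p ∧ IsClosedMap p ∧ Function.Surjective p ∧
      ∀ m, IsCompact (p ⁻¹' {m})) ∧
    ∃ q : P → Z, Continuous q ∧ Function.Surjective q

/-- `K` is Gul'ko compact: `K` is compact Hausdorff and the space of continuous real functions on
`K`, with the topology of pointwise convergence, is Lindelöf Σ. -/
def GulkoCompact (K : Type u) [TopologicalSpace K] : Prop :=
  CompactSpace K ∧ T2Space K ∧ LindelofSigma {g : K → ℝ // Continuous g}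

/-- `X` is splittable over the class of Gul'ko compact spaces. -/
def SplittableOverGulko (X : Type u) [TopologicalSpace X] : Prop :=
  ∀ A : Set X, ∃ (Y : Type u) (_ : TopologicalSpace Y), GulkoCompact Y ∧
    ∃ f : X → Y, Continuous f ∧ f ⁻¹' (f '' A) = A

theorem gs_of_splittable {X : Type u} [TopologicalSpace X] [CompactSpace X] [T2Space X]
    (h : SplittableOverGulko X) : ∃ (E : Type u) (_ : TopologicalSpace E)
      (_ : SecondCountableTopology E) (_ : Nonempty E), GS E X := by
  have hX : GSplit.{u, u} X := by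
    apply gsplit_of
    intro A
    obtain ⟨Y, tY, ⟨hY1, hY2, P, tP, M, tM, -, hM1, hM2, ⟨p, hp1, hp2, -, hp3⟩, q, hq1, hq2⟩,
      f, hf, hfA⟩ := h A
    exact ⟨Y, tY, hY1, hY2, usco_of_perfect p hp1 hp2 hp3 q hq1 hq2, f, hf, hfA⟩
  exact hX.gs

theorem gs_of_gulko {Z : Type u} [TopologicalSpace Z] (h : GulkoCompact Z) :
    ∃ (E : Type u) (_ : TopologicalSpace E) (_ : SecondCountableTopology E), GS E Z := by
  obtain ⟨h1, h2, P, tP, M, tM, -, hM1, hM2, ⟨p, hp1, hp2, -, hp3⟩, q, hq1, hq2⟩ := h
  obtain ⟨E, _, _, _, ζ, hζ⟩ := usco_of_perfect p hp1 hp2 hp3 q hq1 hq2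
  exact ⟨ℕ → E, inferInstance, inferInstance, hζ.gs⟩

/-- Every Hausdorff continuous image of a closed subspace of a countable product of compact spaces
splittable over Gul'ko compacta is Gul'ko compact. -/
theorem gulko {ι : Type} [Countable ι] {X : ι → Type u} [∀ i, TopologicalSpace (X i)]
    [∀ i, CompactSpace (X i)] [∀ i, T2Space (X i)] (hX : ∀ i, SplittableOverGulko (X i))
    {F : Set (∀ i, X i)} (hF : IsClosed F) {Z : Type u} [TopologicalSpace Z] [T2Space Z]
    (g : F → Z) (hg : Continuous g) (hs : Function.Surjective g) : GulkoCompact Z := by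
  choose E tE sE nE hE using fun n => gs_of_splittable (hX n)
  have h1 := gs_pi (E := E) hE
  have hFc : CompactSpace F := isCompact_iff_compactSpace.1 hF.isCompact
  have h2 : GS (Σ n, E n) F := gs_inj h1 ⟨Subtype.val, continuous_subtype_val⟩
    Subtype.val_injective
  have h3 := ((LSg_continuous h2).image_space g hg hs).perfect
  have hcZ : CompactSpace Z := by
    constructor
    have := (isCompact_univ (X := F)).image hg
    rwa [Set.image_univ, hs.range_eq] at this
  exact ⟨hcZ, inferInstance, h3⟩

/-- continuous images of Gul'ko compact spaces -/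
theorem gulko_image {X Z : Type u} [TopologicalSpace X] [TopologicalSpace Z] [T2Space Z]
    (hX : GulkoCompact X) (g : X → Z) (hg : Continuous g) (hs : Function.Surjective g) :
    GulkoCompact Z := by
  obtain ⟨E, _, _, hE⟩ := gs_of_gulko hX
  haveI := hX.1
  haveI := hX.2.1
  have h3 := ((LSg_continuous hE).image_space g hg hs).perfect
  have hcZ : CompactSpace Z := by
    constructor
    have := (isCompact_univ (X := X)).image hg
    rwa [Set.image_univ, hs.range_eq] at this
  exact ⟨hcZ, inferInstance, h3⟩

theorem splittable_of_gulko {Z : Type u} [TopologicalSpace Z] (h : GulkoCompact Z) :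
    SplittableOverGulko Z := fun A => ⟨Z, inferInstance, h, id, continuous_id, by simp⟩

theorem dense_gd {Z : Type u} [TopologicalSpace Z] (h : GulkoCompact Z) :
    ∃ D : Set Z, Dense D ∧ IsGδ D ∧ TopologicalSpace.MetrizableSpace D := by
  obtain ⟨E, _, _, hE⟩ := gs_of_gulko h
  haveI := h.1
  haveI := h.2.1
  exact dense_metrizable_gd hE

theorem base_gulko {Z : Type u} [TopologicalSpace Z] (h : GulkoCompact Z) {κ : Cardinal.{u}}
    (hκ : ℵ₀ ≤ κ) (hc : Cell κ Z) :
    ∃ B : Set (Set Z), TopologicalSpace.IsTopologicalBasis B ∧ #B ≤ κ := by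
  obtain ⟨E, _, _, hE⟩ := gs_of_gulko h
  haveI := h.1
  haveI := h.2.1
  obtain ⟨D, hD, -, hm⟩ := dense_metrizable_gd hE
  exact base_of_cell hE hκ hc hD hm

/-- the case of the countable chain condition -/
theorem ccc_gulko {Z : Type u} [TopologicalSpace Z] (h : GulkoCompact Z) (hc : Cell ℵ₀ Z) :
    TopologicalSpace.MetrizableSpace Z := by
  obtain ⟨B, hB1, hB2⟩ := base_gulko h le_rfl hc
  haveI := h.1
  haveI := h.2.1
  have hs : SecondCountableTopology Z :=
    hB1.secondCountableTopology (Cardinal.le_aleph0_iff_set_countable.1 hB2)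
  exact TopologicalSpace.metrizableSpace_of_t3_secondCountable Z

end Pool.Agent.Y417.SG
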